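import Pool.Agent.helper79.SX.Spec

/-!
# Project sx (MP_5628fe_nt), module SUB (helper77)
-/

set_option autoImplicit false

open Finset ArithmeticFunction

namespace Pool.Agent.SX

theorem SUB (hOMG : OMG_stmt) (hSAD : SAD_stmt) : SUB_stmt := by
  classical
  intro n h hn hh hsz m hm
  have homg := hOMG n h m (by omega) hh hm
  obtain ⟨hPr, -⟩ := hSAD
  unfold Gd at hm
  rw [Finset.mem_filter] at hm
  obtain ⟨hA, hP, -, -⟩ := hm
  unfold An at hA
  rw [Finset.mem_filter, Finset.mem_Ioc] at hA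
  obtain ⟨⟨hm1, hm2⟩, hm30⟩ := hA
  have hn2 : 6 ≤ 3 * n ^ 2 + 3 * n := by nlinarith
  have e3 : (n + 1) ^ 3 = n ^ 3 + (3 * n ^ 2 + 3 * n) + 1 := by ring
  have hlt : m + 6 < (n + 1) ^ 3 := by
    rw [e3]
    omega
  have hbig : 128 ≤ n ^ 3 := hn.trans (Nat.le_self_pow (by norm_num) n)
  unfold Tset
  rw [Finset.mem_filter, Finset.mem_Ioo]
  refine ⟨⟨hm1, by omega⟩, hlt, homg.1, homg.2.1, homg.2.2, ?_, ?_⟩
  · intro p hp hpm
    have h7 : 7 ≤ p := by
      by_contra hlt7
      push Not at hlt7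
      have hp2 := hp.two_le
      rcases (Nat.Prime.dvd_mul hp).1 hpm with h2 | h2
      · interval_cases p
        · omega
        · omega
        · revert hp; decide
        · omega
        · revert hp; decide
      · interval_cases p
        · omega
        · omega
        · revert hp; decide
        · omega
        · revert hp; decide
    refine ⟨h7, ?_⟩
    have h10 : 2 ^ h ≤ p ^ 10 := by
      by_contra hcon
      push Not at hcon
      exact hP p ((hPr h p).2 ⟨hp, h7, hcon⟩) hpm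
    have h11 : ((n + 1) ^ 2) ^ 10 ≤ (p ^ 11) ^ 10 := by
      calc ((n + 1) ^ 2) ^ 10 = (n + 1) ^ 20 := by rw [← pow_mul]
        _ ≤ 2 ^ (11 * h) := hsz
        _ = (2 ^ h) ^ 11 := by rw [← pow_mul, mul_comm]
        _ ≤ (p ^ 10) ^ 11 := Nat.pow_le_pow_left h10 11
        _ = (p ^ 11) ^ 10 := by rw [← pow_mul, ← pow_mul]
    have h12 : (n + 1) ^ 2 ≤ p ^ 11 := (Nat.pow_le_pow_iff_left (by norm_num)).1 h11
    have h13 : n ^ 2 < (n + 1) ^ 2 := Nat.pow_lt_pow_left (Nat.lt_succ_self n) (by norm_num)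
    exact h13.trans_le h12
  · intro q hq1 hq2 hq
    have h2 : ¬ 2 ∣ q := fun hd => by
      have := (Nat.prime_dvd_prime_iff_eq Nat.prime_two hq).1 hd
      omega
    have h3 : ¬ 3 ∣ q := fun hd => by
      have := (Nat.prime_dvd_prime_iff_eq Nat.prime_three hq).1 hd
      omega
    have h5 : ¬ 5 ∣ q := fun hd => by
      have := (Nat.prime_dvd_prime_iff_eq Nat.prime_five hq).1 hd
      omega
    clear homg hP hPr hsz hm2 e3 hlt hn2
    have hcase : q = m + 1 ∨ q = m + 2 ∨ q = m + 3 ∨ q = m + 4 ∨ q = m + 5 := by omega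
    rcases hcase with h | h | h | h | h
    · exact h2 (by omega)
    · exact h3 (by omega)
    · exact h2 (by omega)
    · exact h5 (by omega)
    · exact h2 (by omega)

end Pool.Agent.SX
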